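import Mathlib
import Pool.Agent.W71.EC.Count
import Pool.Agent.W5h83.HG.Maps

/-!
# Countability of the homotopy of the group of compactly supported symplectomorphisms

`G = Symp_ct(ℝ²ⁿ, ω_st)` with the direct limit topology. Two elements are *never opposite* if their
differentials never map a nonzero vector to two vectors of opposite directions. For every `ψ` the set
`U_ψ` of the elements which are never opposite to `ψ` is open and contractible, and countably many of
these sets cover `G`. `π₀(G)` and all homotopy groups of `G`, at every base point, are countable;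
in fact the maps of a compact metrizable space into `G` with prescribed values on a subset form
countably many homotopy classes relative to this subset.
-/

set_option autoImplicit false

open Pool.Agent.W71.EC Topology

namespace Pool.Agent.Results.MP_ec5dc5_gt.CountableHomotopy

/-- The set `U_ψ` of the `φ` in `G` whose differential is never opposite to the one of `ψ`: there are
no `x`, `v ≠ 0` and `c > 0` with `D φ(x) v = - c D ψ(x) v`. -/
def neverOpposite {n : ℕ} (ψ : SympCt n) : Set (SympCt n) :=
  {φ | ∀ x v, v ≠ 0 → ∀ c : ℝ, 0 < c →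
    fderiv ℝ φ.toEquiv x v ≠ -(c • fderiv ℝ ψ.toEquiv x v)}

/-- countably many of the sets `U_ψ` cover `G` -/
theorem countable_cover (n : ℕ) : ∃ S : Set (SympCt n), S.Countable ∧
    ⋃ ψ ∈ S, neverOpposite ψ = Set.univ := by
  have main : ∀ m : ℕ, ∃ S : Set (SympCt n), S.Countable ∧
      ∀ φ ∈ supportedIn (Metric.closedBall (0 : R2 n) m), ∃ ψ ∈ S, φ ∈ neverOpposite ψ := by
    intro m
    let M : Type := {φ : SympCt n // φ ∈ supportedIn (Metric.closedBall (0 : R2 n) m)}
    let D : M → C(R2 n, R2 n →L[ℝ] R2 n) := fun φ => dmap φ.1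
    let τ : TopologicalSpace M := TopologicalSpace.induced D ContinuousMap.compactOpen
    have hsc : SecondCountableTopology M :=
      TopologicalSpace.secondCountableTopology_induced _ _ _
    have hD : Continuous D := continuous_induced_dom
    let V : M → Set M := fun g => {f | f.1 ∈ neverOpposite g.1}
    have hV : ∀ g : M, V g ∈ 𝓝 g := by
      intro g
      have h1 := Pool.Agent.W5h83.HG.eventually_neverOpp (T := M) (C := Unit) (t₀ := g)
        (fun f _ => f.1) (fun _ => g.1)
        (isCompact_closedBall (0 : R2 n) m) (fun f _ => f.2) (fun _ => g.2)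
        ((hD.comp continuous_fst).eval (continuous_snd.comp continuous_snd))
        ((Pool.Agent.W5h83.HG.continuous_fderiv_family (P := Unit)
          (f := fun _ : Unit => g.1) continuous_const))
        (fun _ => Pool.Agent.W5h83.HG.NeverOpp.refl _)
      filter_upwards [h1] with f hf
      exact hf ()
    obtain ⟨S, hS, hcov⟩ := TopologicalSpace.countable_cover_nhds hV
    refine ⟨Subtype.val '' S, hS.image _, ?_⟩
    intro φ hφ
    have h1 : (⟨φ, hφ⟩ : M) ∈ ⋃ x ∈ S, V x := by
      rw [hcov]
      trivial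
    simp only [Set.mem_iUnion] at h1
    obtain ⟨g, hg, h2⟩ := h1
    exact ⟨g.1, ⟨g, hg, rfl⟩, h2⟩
  choose S hS h2 using main
  refine ⟨⋃ m, S m, Set.countable_iUnion hS, Set.eq_univ_of_forall fun φ => ?_⟩
  obtain ⟨m, hm⟩ := Pool.Agent.W5h83.HG.supp_unif (isCompact_singleton (x := φ))
  obtain ⟨ψ, hψ, h3⟩ := h2 m φ (hm _ rfl)
  simp only [Set.mem_iUnion]
  exact ⟨ψ, ⟨m, hψ⟩, h3⟩

/-- **Countability of the homotopy of `Symp_ct(ℝ²ⁿ)`.** -/
theorem result (n : ℕ) :
    Countable (ZerothHomotopy (SympCt n)) ∧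
    (∀ (k : ℕ) (φ : SympCt n), Countable (HomotopyGroup (Fin k) (SympCt n) φ)) ∧
    (∀ (C : Type) [TopologicalSpace C] [CompactSpace C] [T2Space C] [SecondCountableTopology C]
      (A : Set C) (f₀ : C(C, SympCt n)),
      ∃ S : Set C(C, SympCt n), S.Countable ∧ (∀ h ∈ S, ∀ c ∈ A, h c = f₀ c) ∧
        ∀ f : C(C, SympCt n), (∀ c ∈ A, f c = f₀ c) → ∃ h ∈ S, f.HomotopicRel h A) ∧
    (∀ ψ : SympCt n, ψ ∈ neverOpposite ψ ∧ IsOpen (neverOpposite ψ) ∧
      ContractibleSpace (neverOpposite ψ)) ∧
    (∃ S : Set (SympCt n), S.Countable ∧ ⋃ ψ ∈ S, neverOpposite ψ = Set.univ) := by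
  refine ⟨Pool.Agent.W71.EC.countable_pi0 n,
    fun k φ => Pool.Agent.W5h83.HG.countable_homotopyGroup k φ,
    fun C _ _ _ _ A f₀ => Pool.Agent.W5h83.HG.countable_classes A f₀, fun ψ => ⟨?_, ?_, ?_⟩,
    countable_cover n⟩
  · exact Pool.Agent.W5h83.HG.NeverOpp.refl ψ
  · exact Pool.Agent.W5h83.HG.isOpen_neverOpp ψ
  · exact Pool.Agent.W5h83.HG.contractible_neverOpp ψ

end Pool.Agent.Results.MP_ec5dc5_gt.CountableHomotopy
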