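import Mathlib
import Pool.Agent.U145.EC.FinalS

/-!
# Generating functions of all linear types and isotopies of symplectomorphisms of `ℝ²ⁿ`

`G = Symp_ct(ℝ²ⁿ, ω_st)` with the direct limit topology. A *linear type* is a linear map `R` with
`ω(R u, v) + ω(u, R v) = ω(u, v)` (these maps correspond to the Lagrangian complements of the
diagonal in `(ℝ²ⁿ × ℝ²ⁿ, (-ω) ⊕ ω)`, that is, to the linear types of generating functions). `φ` is
*`R`-related* to `ψ` if `Dψ(x) + s R (Dφ(x) - Dψ(x))` is injective for all `x` and all
`s ∈ [0, 1]`. We prove that two families of elements of `G` over a compact space which are related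
by types depending continuously on the parameter are homotopic, by a homotopy which does not move
any value `f_c(x)` with `f_c(x) = g_c(x)` and keeps all common linear symmetries. For `R = 1/2` this is
the case of differentials which are never opposite. The projections to a Lagrangian subspace `L` along
a Lagrangian subspace give: a family is null homotopic if the `L`-blocks of its differentials have no
eigenvalue in `(-∞, 0]`; no condition on the other three blocks is needed. The types `(1 + τ J) / 2`
give: a family is null homotopic if its differentials omit a ray `1 + k (z - 1)`, `k ≥ 1`,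
`|z| = 1`, `z ≠ 1`, of the complex numbers acting through a complex structure `J ∈ Sp(2n)`. Path-connectedness
and weak contractibility of `G` are equivalent to decompositions into factors of such types.
-/

set_option autoImplicit false

open Pool.Agent.W71.EC Topology

namespace Pool.Agent.Results.MP_ec5dc5_gt.LagrangianBlocks

variable {n : ℕ}

/-- The value `R v` of a linear map. -/
def ap (R : R2 n →L[ℝ] R2 n) (v : R2 n) : R2 n := R v

/-- The directional derivative `Dφ(x) v`. -/
noncomputable def dif (φ : SympCt n) (x v : R2 n) : R2 n := fderiv ℝ φ.toEquiv x v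

/-- The linear types: `ω(R u, v) + ω(u, R v) = ω(u, v)`. -/
def IsType (R : R2 n →L[ℝ] R2 n) : Prop :=
  ∀ u v, omega (ap R u) v + omega u (ap R v) = omega u v

/-- `φ` is `R`-related to `ψ`: the linear maps `Dψ(x) + s R (Dφ(x) - Dψ(x))` with `s ∈ [0, 1]` are
injective. -/
def Related (R : R2 n →L[ℝ] R2 n) (φ ψ : SympCt n) : Prop :=
  ∀ x v, v ≠ 0 → ∀ s ∈ Set.Icc (0 : ℝ) 1,
    dif ψ x v + s • ap R (dif φ x v - dif ψ x v) ≠ 0

/-- `π` is the projection to a Lagrangian subspace along a Lagrangian subspace. -/
def LagrangianProjection (π : R2 n →L[ℝ] R2 n) : Prop :=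
  (∀ v, ap π (ap π v) = ap π v) ∧ (∀ u v, omega (ap π u) (ap π v) = 0) ∧
    ∀ u v, omega (u - ap π u) (v - ap π v) = 0

/-- The blocks `π Dθ(x) : L → L`, where `L` is the range of `π`, have no eigenvalue in `(-∞, 0]`. -/
def BlockCondition (π : R2 n →L[ℝ] R2 n) (θ : SympCt n) : Prop :=
  ∀ x v, v ≠ 0 → ap π v = v → ∀ k : ℝ, 0 ≤ k → ap π (dif θ x v) ≠ -(k • v)

/-- `J` is a complex structure on the vector space `ℝ²ⁿ` which preserves `ω_st`. -/
def ComplexStructure (J : R2 n →L[ℝ] R2 n) : Prop :=
  (∀ v, ap J (ap J v) = -v) ∧ ∀ u v, omega (ap J u) (ap J v) = omega u v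

/-- No differential of `θ` multiplies a vector `v ≠ 0` by a complex number `1 + k (z - 1)` with
`k ≥ 1`, where `z = a + b i` and the complex numbers act through `J`. -/
def OmitsRay (J : R2 n →L[ℝ] R2 n) (a b : ℝ) (θ : SympCt n) : Prop :=
  ∀ x v, v ≠ 0 → ∀ k : ℝ, 1 ≤ k → dif θ x v ≠ v + k • ((a - 1) • v + b • ap J v)

/-- `∂X/∂x` has a positive definite symmetric part at all points, where `θ = (X, Y)`. -/
def PositiveBlock (θ : SympCt n) : Prop :=
  ∀ x (u : Fin n → ℝ), u ≠ 0 → 0 < ∑ i, u i * (dif θ x (u, 0)).1 i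

/-- The values of the family `θ` are related to the identity by types which depend continuously on
the parameter. -/
def TypedFamily {C : Type} [TopologicalSpace C] (θ : C → SympCt n) : Prop :=
  ∃ R : C → (R2 n →L[ℝ] R2 n), Continuous R ∧ (∀ c, IsType (R c)) ∧ ∀ c, Related (R c) (θ c) one

/-- `φ` moves no point by more than `ε` (sup norm) and is the identity outside `U`. -/
def Small (U : Set (R2 n)) (ε : ℝ) (φ : SympCt n) : Prop :=
  φ ∈ supportedIn U ∧ ∀ x, ‖φ.toEquiv x - x‖ ≤ ε

/-- A finite product (composition) of elements, each related to the identity by some type. -/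
def TypedProduct (φ : SympCt n) : Prop :=
  ∃ l : List (SympCt n), (∀ θ ∈ l, ∃ R : R2 n →L[ℝ] R2 n, IsType R ∧ Related R θ one) ∧
    φ = l.foldr comp one

/-- A finite product of elements for which `∂X/∂x` has a positive definite symmetric part. -/
def PositiveProduct (φ : SympCt n) : Prop :=
  ∃ l : List (SympCt n), (∀ θ ∈ l, PositiveBlock θ) ∧ φ = l.foldr comp one

/-- `f` is the product of finitely many typed families which are the identity on `A` and of `g`. -/
def TypedFactors {C : Type} [TopologicalSpace C] (A : Set C) (f g : C → SympCt n) : Prop :=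
  ∃ l : List C(C, SympCt n), (∀ θ ∈ l, (∀ c ∈ A, θ c = one) ∧ TypedFamily θ) ∧
    ∀ c, f c = (l.map fun θ => θ c).foldr comp (g c)

/-- `f` is the product of finitely many families with positive definite symmetric part of `∂X/∂x`
which are the identity on `A` and of `g`. -/
def PositiveFactors {C : Type} [TopologicalSpace C] (A : Set C) (f g : C → SympCt n) : Prop :=
  ∃ l : List C(C, SympCt n), (∀ θ ∈ l, (∀ c ∈ A, θ c = one) ∧ ∀ c, PositiveBlock (θ c)) ∧
    ∀ c, f c = (l.map fun θ => θ c).foldr comp (g c)

/-- The value `φ(x)`. -/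
def val (φ : SympCt n) (x : R2 n) : R2 n := φ.toEquiv x

/-- `φ` commutes with the linear map `T`. -/
def CommutesWith (T : R2 n →L[ℝ] R2 n) (φ : SympCt n) : Prop :=
  ∀ x, val φ (ap T x) = ap T (val φ x)

/-- **Related families are homotopic**, by a homotopy which is stationary at all coincidences, stays
related to `g` and commutes with the linear maps which commute with the types, with `f` and with
`g`. -/
def RelatedHomotopic (n : ℕ) : Prop :=
  ∀ (C : Type) [TopologicalSpace C] [CompactSpace C] (f g : C(C, SympCt n))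
    (R : C → (R2 n →L[ℝ] R2 n)), Continuous R → (∀ c, IsType (R c)) →
    (∀ c, Related (R c) (f c) (g c)) →
    ∃ F : g.Homotopy f,
      (∀ t c x, val (f c) x = val (g c) x → val (F (t, c)) x = val (g c) x) ∧
      (∀ t c, Related (R c) (F (t, c)) (g c)) ∧
      ∀ c (T : R2 n →L[ℝ] R2 n), (∀ v, ap (R c) (ap T v) = ap T (ap (R c) v)) →
        CommutesWith T (f c) → CommutesWith T (g c) → ∀ t, CommutesWith T (F (t, c))

/-- **Lagrangian blocks.** Families whose blocks along a Lagrangian splitting (which may depend on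
the parameter) have no eigenvalue in `(-∞, 0]` are null homotopic. -/
def BlocksNull (n : ℕ) : Prop :=
  ∀ (C : Type) [TopologicalSpace C] [CompactSpace C] (f : C(C, SympCt n))
    (π : C → (R2 n →L[ℝ] R2 n)), Continuous π → (∀ c, LagrangianProjection (π c)) →
    (∀ c, BlockCondition (π c) (f c)) →
    f.HomotopicRel (ContinuousMap.const C one) {c | f c = one}

/-- **Omitted rays.** Families whose differentials omit a ray are null homotopic. -/
def RaysNull (n : ℕ) : Prop :=
  ∀ (C : Type) [TopologicalSpace C] [CompactSpace C] (f : C(C, SympCt n))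
    (J : C → (R2 n →L[ℝ] R2 n)) (a b : C → ℝ), Continuous J → (∀ c, ComplexStructure (J c)) →
    Continuous a → Continuous b → (∀ c, a c ^ 2 + b c ^ 2 = 1) → (∀ c, a c ≠ 1) →
    (∀ c, OmitsRay (J c) (a c) (b c) (f c)) →
    f.HomotopicRel (ContinuousMap.const C one) {c | f c = one}

/-- The elements which are `R`-related to `ψ` form an open contractible set. -/
def OpenContractible (n : ℕ) : Prop :=
  ∀ (R : R2 n →L[ℝ] R2 n), IsType R → ∀ ψ : SympCt n,
    IsOpen {φ : SympCt n | Related R φ ψ} ∧ ContractibleSpace {φ : SympCt n // Related R φ ψ}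

/-- **Homotopy classes** of maps from a compact space, relative to a subset. -/
def Classes (n : ℕ) : Prop :=
  ∀ (C : Type) [TopologicalSpace C] [CompactSpace C] (A : Set C) (f g : C(C, SympCt n)),
    List.TFAE [f.HomotopicRel g A, PositiveFactors A f g, TypedFactors A f g]

/-- **Question (b).** -/
def CriterionB (n : ℕ) : Prop := List.TFAE [
  PathConnectedSpace (SympCt n),
  ∀ φ : SympCt n, PositiveProduct φ,
  ∀ φ : SympCt n, TypedProduct φ,
  ∃ U : Set (R2 n), IsOpen U ∧ U.Nonempty ∧ ∃ ε : ℝ, 0 < ε ∧
    ∀ φ : SympCt n, Small U ε φ → TypedProduct φ]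

/-- **Question (a).** -/
def CriterionA (n : ℕ) : Prop := List.TFAE [
  ∀ k : ℕ, Subsingleton (HomotopyGroup (Fin k) (SympCt n) one),
  ∀ (k : ℕ) (f : C(Fin k → unitInterval, SympCt n)),
    (∀ y ∈ Cube.boundary (Fin k), f y = one) →
    PositiveFactors (Cube.boundary (Fin k)) f fun _ => one,
  ∀ (k : ℕ) (f : C(Fin k → unitInterval, SympCt n)),
    (∀ y ∈ Cube.boundary (Fin k), f y = one) →
    TypedFactors (Cube.boundary (Fin k)) f fun _ => one,
  ∃ U : Set (R2 n), IsOpen U ∧ U.Nonempty ∧ ∃ ε : ℝ, 0 < ε ∧
    ∀ (k : ℕ) (f : C(Fin k → unitInterval, SympCt n)),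
      (∀ y ∈ Cube.boundary (Fin k), f y = one) → (∀ y, Small U ε (f y)) →
      TypedFactors (Cube.boundary (Fin k)) f fun _ => one]

/-- **Isotopies of symplectomorphisms of `ℝ²ⁿ` from generating functions of all linear types.** -/
theorem result (n : ℕ) : RelatedHomotopic n ∧ BlocksNull n ∧ RaysNull n ∧ OpenContractible n ∧
    Classes n ∧ CriterionB n ∧ CriterionA n := by
  refine ⟨?_, ?_, ?_, ?_, ?_, ?_, ?_⟩
  · intro C _ _ f g R hRc hR hn
    exact Pool.Agent.U145.EC.homotopy_full f g hRc hR hn
  · intro C _ _ f π hc hπ h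
    exact Pool.Agent.U145.EC.null_of_blocks f hc
      (fun c => ⟨(hπ c).1, (hπ c).2.1, (hπ c).2.2⟩) h
  · intro C _ _ f J a b hc hJ ha hb hab ha1 h
    exact Pool.Agent.U145.EC.null_of_rays f hc (fun c => ⟨(hJ c).1, (hJ c).2⟩) ha hb hab ha1 h
  · intro R hR ψ
    exact Pool.Agent.U145.EC.open_contractible hR ψ
  · intro C _ _ A f g
    exact Pool.Agent.U145.EC.classes_tfae A f g
  · exact Pool.Agent.U145.EC.connected_tfaeT n
  · exact Pool.Agent.U145.EC.contractible_tfaeT n

end Pool.Agent.Results.MP_ec5dc5_gt.LagrangianBlocks
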