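import Mathlib
import Pool.Agent.U530.HG.Comm

/-!
# Connectedness and contractibility of `Symp_ct(ℝ²ⁿ)` and products of symplectomorphisms without
negative eigenvalues

`G = Symp_ct(ℝ²ⁿ, ω_st)` with the direct limit topology. Call `θ` in `G` *without negative
eigenvalues* if no differential `D θ(x)` has a negative real eigenvalue. Then `G` is path-connected
if and only if each element is a finite product of elements without negative eigenvalues, and it is
enough to know this for the elements which are `C⁰`-close to the identity and supported in a small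
open set. All homotopy groups of `G` vanish if and only if every map of a cube to `G` which is the
identity on the boundary is a finite product of such maps with values without negative eigenvalues,
and again only the maps with values which are `C⁰`-close to the identity and supported in a small open
set matter. For every compact space `C` the homotopy classes of maps `C → G`, relative to a subset,
are described by such products, contain representatives with small supports and `C⁰`-close to the
identity, and form a commutative group.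
-/

set_option autoImplicit false

open Pool.Agent.W71.EC Topology

namespace Pool.Agent.Results.MP_ec5dc5_gt.ProductCriterion

/-- No differential of `θ` has a negative real eigenvalue. -/
def NoNegEig {n : ℕ} (θ : SympCt n) : Prop :=
  ∀ x v, v ≠ 0 → ∀ c : ℝ, 0 < c → fderiv ℝ θ.toEquiv x v ≠ -(c • v)

/-- A finite product (composition) of elements without negative eigenvalues. -/
def Product {n : ℕ} (φ : SympCt n) : Prop :=
  ∃ l : List (SympCt n), (∀ θ ∈ l, NoNegEig θ) ∧ φ = l.foldr comp one

/-- A finite product of maps `C → G` which are the identity on `A` and have values without negative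
eigenvalues. -/
def ProductFam {n : ℕ} {C : Type} [TopologicalSpace C] (A : Set C) (f : C(C, SympCt n)) : Prop :=
  ∃ l : List C(C, SympCt n), (∀ θ ∈ l, (∀ c ∈ A, θ c = one) ∧ ∀ c, NoNegEig (θ c)) ∧
    ∀ c, f c = (l.map fun θ => θ c).foldr comp one

/-- `φ` moves no point by more than `ε` (sup norm) and is the identity outside `U`. -/
def Small {n : ℕ} (U : Set (R2 n)) (ε : ℝ) (φ : SympCt n) : Prop :=
  φ ∈ supportedIn U ∧ ∀ x, ‖φ.toEquiv x - x‖ ≤ ε

/-- **Question (b).** -/
def CriterionB (n : ℕ) : Prop := List.TFAE [
  PathConnectedSpace (SympCt n),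
  ∀ φ : SympCt n, Product φ,
  ∃ U : Set (R2 n), IsOpen U ∧ U.Nonempty ∧ ∃ ε : ℝ, 0 < ε ∧
    ∀ φ : SympCt n, Small U ε φ → Product φ]

/-- **Question (a).** -/
def CriterionA (n : ℕ) : Prop := List.TFAE [
  ∀ k : ℕ, Subsingleton (HomotopyGroup (Fin k) (SympCt n) one),
  ∀ (k : ℕ) (f : C(Fin k → unitInterval, SympCt n)),
    (∀ y ∈ Cube.boundary (Fin k), f y = one) → ProductFam (Cube.boundary (Fin k)) f,
  ∃ U : Set (R2 n), IsOpen U ∧ U.Nonempty ∧ ∃ ε : ℝ, 0 < ε ∧
    ∀ (k : ℕ) (f : C(Fin k → unitInterval, SympCt n)),
      (∀ y ∈ Cube.boundary (Fin k), f y = one) → (∀ y, Small U ε (f y)) →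
      ProductFam (Cube.boundary (Fin k)) f]

/-- The homotopy classes of maps from a compact space: the description by products. -/
def ClassesByProducts (n : ℕ) : Prop :=
  ∀ (C : Type) [TopologicalSpace C] [CompactSpace C] (A : Set C) (f g : C(C, SympCt n)),
    f.HomotopicRel g A ↔ ∃ l : List C(C, SympCt n),
      (∀ θ ∈ l, (∀ c ∈ A, θ c = one) ∧ ∀ c, NoNegEig (θ c)) ∧
        ∀ c, f c = (l.map fun θ => θ c).foldr comp (g c)

/-- Each class has a small representative, whose differentials are differentials of the given map. -/
def SmallRepresentatives (n : ℕ) : Prop :=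
  ∀ (C : Type) [TopologicalSpace C] [CompactSpace C] (f : C(C, SympCt n)) (U : Set (R2 n)),
    IsOpen U → U.Nonempty → ∀ ε : ℝ, 0 < ε →
    ∃ g : C(C, SympCt n), f.HomotopicRel g {c | f c = one} ∧ (∀ c, Small U ε (g c)) ∧
      ∀ c x, ∃ y, fderiv ℝ (g c).toEquiv x = fderiv ℝ (f c).toEquiv y

/-- The pointwise products of two maps in the two orders are homotopic. -/
def Commutative (n : ℕ) : Prop :=
  ∀ (C : Type) [TopologicalSpace C] [CompactSpace C] (f g : C(C, SympCt n)),
    ∃ h h' : C(C, SympCt n), (∀ c, h c = comp (f c) (g c)) ∧ (∀ c, h' c = comp (g c) (f c)) ∧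
      h.HomotopicRel h' {c | f c = one ∧ g c = one}

/-- **Connectedness and contractibility of `Symp_ct(ℝ²ⁿ)` in terms of products.** -/
theorem result (n : ℕ) : CriterionB n ∧ CriterionA n ∧ ClassesByProducts n ∧
    SmallRepresentatives n ∧ Commutative n := by
  refine ⟨Pool.Agent.U530.HG.connected_tfae' n, Pool.Agent.U530.HG.contractible_tfae' n,
    fun C _ _ A f g => Pool.Agent.W5h83.HG.homotopicRel_iff_prod A f g, ?_, ?_⟩
  · intro C _ _ f U hU hne ε hε
    obtain ⟨g, h1, h2, h3, h4⟩ := Pool.Agent.U530.HG.exists_small_family f U hU hne ε hε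
    exact ⟨g, h1, fun c => ⟨h2 c, h3 c⟩, h4⟩
  · intro C _ _ f g
    exact ⟨Pool.Agent.W5h83.HG.mulC f g, Pool.Agent.W5h83.HG.mulC g f, fun _ => rfl, fun _ => rfl,
      Pool.Agent.U530.HG.comm_family f g⟩

end Pool.Agent.Results.MP_ec5dc5_gt.ProductCriterion
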