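import Pool.Agent.U731.SC.C
import Pool.Agent.U731.SC.D

/-!
# Two norms on the isotopy classes of compactly supported symplectomorphisms of `ℝ²ⁿ`

`G = Symp_ct(ℝ²ⁿ)` with the direct limit topology; `SympCt n`, `comp`, `inv`, `one`, `supportedIn`
are from the starting library. The *stretch* of a homotopy class of families is the least bound for
the Euclidean norms of the differentials of its members. It is an ultrametric norm: the stretch of a
product is at most the maximum of the stretches, since homotheties bring the supports into disjoint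
balls and do not change the set of the differentials. The *complexity* of an isotopy class is the
least Lipschitz constant of the differential of a member supported in the unit cube. There are only
finitely many classes below each bound, and `m²ⁿ` classes can be packed into the unit cube at the
cost of a factor `m`.
-/

set_option autoImplicit false

open Pool.Agent.W71.EC

namespace Pool.Agent.Results.MP_ec5dc5_gt.TwoNorms

/-- The square of the Euclidean norm of a vector of `ℝ²ⁿ`. -/
def sq {n : ℕ} (v : R2 n) : ℝ := ∑ i, (v.1 i ^ 2 + v.2 i ^ 2)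

/-- The family `f` is homotopic, relative to `A`, to a family of symplectomorphisms all of whose
differentials lie in the set `P` of linear maps. -/
def DifferentialsIn {n : ℕ} {C : Type} [TopologicalSpace C] (P : Set (R2 n →L[ℝ] R2 n))
    (A : Set C) (f : C(C, SympCt n)) : Prop :=
  ∃ g : C(C, SympCt n), f.HomotopicRel g A ∧ ∀ c x, fderiv ℝ (g c).toEquiv x ∈ P

/-- The homotopy class, relative to `A`, of the family `f` has stretch at most `K`: it contains a
family whose differentials have Euclidean norm at most `K`. -/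
def StretchLE {n : ℕ} {C : Type} [TopologicalSpace C] (K : ℝ) (A : Set C)
    (f : C(C, SympCt n)) : Prop :=
  DifferentialsIn {T | ∀ v, sq (T v) ≤ K ^ 2 * sq v} A f

/-- The isotopy class of `φ` has complexity at most `L`: it contains an element supported in the unit
cube `[-1, 1]²ⁿ` whose differential is `L`-Lipschitz (for the maximum norm). -/
def ComplexityLE {n : ℕ} (L : ℝ) (φ : SympCt n) : Prop :=
  ∃ ψ : SympCt n, Joined φ ψ ∧ ψ ∈ supportedIn (Metric.closedBall (0 : R2 n) 1) ∧
    ∀ x y, ‖fderiv ℝ ψ.toEquiv x - fderiv ℝ ψ.toEquiv y‖ ≤ L * ‖x - y‖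

/-- The classes with differentials in `P` are closed under products. -/
def Products (n : ℕ) : Prop :=
  ∀ (C : Type) [TopologicalSpace C] [CompactSpace C] (A : Set C) (P : Set (R2 n →L[ℝ] R2 n))
    (f g h : C(C, SympCt n)), (∀ c ∈ A, f c = one ∧ g c = one) → (∀ c, h c = comp (f c) (g c)) →
    DifferentialsIn P A f → DifferentialsIn P A g → DifferentialsIn P A h

/-- The stretch is an ultrametric norm: it is finite, symmetric, and the stretch of a product is at
most the maximum of the stretches. -/
def Ultrametric (n : ℕ) : Prop :=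
  ∀ (C : Type) [TopologicalSpace C] [CompactSpace C] (A : Set C) (f g h : C(C, SympCt n)),
    (∃ K : ℝ, 1 ≤ K ∧ StretchLE K A f) ∧
    ∀ K L : ℝ, 0 ≤ K → 0 ≤ L → StretchLE K A f →
      ((∀ c, h c = inv (f c)) → StretchLE K A h) ∧
      ((∀ c ∈ A, f c = one ∧ g c = one) → (∀ c, h c = comp (f c) (g c)) → StretchLE L A g →
        StretchLE (max K L) A h)

/-- The stretch is bounded on finitely generated groups of classes. -/
def BoundedOnFG (n : ℕ) : Prop :=
  ∀ (C : Type) [TopologicalSpace C] [CompactSpace C] (A : Set C) (S : Finset C(C, SympCt n)),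
    (∀ f ∈ S, ∀ c ∈ A, f c = one) → ∃ K : ℝ, ∀ l : List C(C, SympCt n),
      (∀ θ ∈ l, ∃ η ∈ S, θ = η ∨ ∀ c, θ c = inv (η c)) → ∀ h : C(C, SympCt n),
      (∀ c, h c = (l.map fun θ => θ c).foldr comp one) → StretchLE K A h

/-- Nontrivial classes have a stretch bounded away from one. -/
def StretchGap (n : ℕ) : Prop :=
  ∃ ε : ℝ, 0 < ε ∧ ∀ (C : Type) [TopologicalSpace C] [CompactSpace C] (A : Set C)
    (f : C(C, SympCt n)), (∀ c ∈ A, f c = one) → StretchLE (1 + ε) A f →
    f.HomotopicRel (ContinuousMap.const C one) A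

/-- The complexity is finite; there are finitely many isotopy classes below each bound, and only the
trivial one below the bound one; a product of at most `m²ⁿ` elements of complexity at most `L` has
complexity at most `m L`. -/
def Complexity (n : ℕ) : Prop :=
  (∀ φ : SympCt n, ∃ L : ℝ, ComplexityLE L φ) ∧
  (∀ L : ℝ, {q : ZerothHomotopy (SympCt n) | ∃ φ : SympCt n, q = Quotient.mk _ φ ∧
    ComplexityLE L φ}.Finite) ∧
  (∀ (φ : SympCt n) (L : ℝ), L < 1 → ComplexityLE L φ → Joined one φ) ∧
  ∀ (m : ℕ) (L : ℝ) (l : List (SympCt n)), 0 ≤ L → l.length ≤ m ^ (2 * n) →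
    (∀ φ ∈ l, ComplexityLE L φ) → ComplexityLE (m * L) (l.foldr comp one)

open Pool.Agent.U731.SC Pool.Agent.W5h83.HG

theorem stretch_eq {n : ℕ} {C : Type} [TopologicalSpace C] (K : ℝ) (A : Set C)
    (f : C(C, SympCt n)) : StretchLE K A f ↔ Rep (PK n K) A f := Iff.rfl

theorem complexity_eq {n : ℕ} (L : ℝ) (φ : SympCt n) : ComplexityLE L φ ↔ Cpx L φ := Iff.rfl

theorem PK_mono {n : ℕ} {K L : ℝ} (hK : 0 ≤ K) (h : K ≤ L) : PK n K ⊆ PK n L := by
  intro T hT v
  refine (hT v).trans (mul_le_mul_of_nonneg_right ?_ (sqn_nonneg v))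
  gcongr

/-- **The stretch and the complexity of isotopy classes of symplectomorphisms.** -/
theorem result (n : ℕ) : Products n ∧ Ultrametric n ∧ BoundedOnFG n ∧ StretchGap n ∧
    Complexity n := by
  have hprod : Products n := by
    intro C _ _ A P f g h h1 h2 h3 h4
    have e : h = mulC f g := by ext1 c; rw [h2, mulC_apply]
    rw [e]
    exact rep_mul (fun c hc => (h1 c hc).1) (fun c hc => (h1 c hc).2) h3 h4
  have hinv : ∀ (C : Type) [TopologicalSpace C] [CompactSpace C] (A : Set C)
      (f h : C(C, SympCt n)) (K : ℝ), (∀ c, h c = inv (f c)) → StretchLE K A f →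
      StretchLE K A h := by
    intro C _ _ A f h K h1 h2
    have e : h = invC f := by ext1 c; rw [h1, invC_apply]
    rw [e]
    exact rep_mono (inv_PK K) (rep_inv h2)
  refine ⟨hprod, ?_, ?_, ?_, ?_, ?_, ?_, ?_⟩
  · intro C _ _ A f g h
    refine ⟨exists_stretch f A, fun K L hK hL hf => ⟨fun h1 => hinv C A f h K h1 hf, ?_⟩⟩
    intro h1 h2 h3
    exact hprod C A _ f g h h1 h2 (rep_mono (PK_mono hK (le_max_left K L)) hf)
      (rep_mono (PK_mono hL (le_max_right K L)) h3)
  · intro C _ _ A S hS
    classical
    have hK : ∀ T : Finset C(C, SympCt n), ∃ K : ℝ, 1 ≤ K ∧ ∀ f ∈ T, Rep (PK n K) A f := by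
      intro T
      induction T using Finset.induction_on with
      | empty => exact ⟨1, le_rfl, fun f hf => absurd hf (Finset.notMem_empty f)⟩
      | insert a T _ ih =>
        obtain ⟨K, hK, h1⟩ := ih
        obtain ⟨K', hK', h2⟩ := exists_stretch a A
        refine ⟨max K K', hK.trans (le_max_left _ _), fun f hf => ?_⟩
        rcases Finset.mem_insert.1 hf with rfl | hf
        · exact rep_mono (PK_mono (by linarith) (le_max_right K K')) h2
        · exact rep_mono (PK_mono (by linarith) (le_max_left K K')) (h1 f hf)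
    obtain ⟨K, hK1, hKS⟩ := hK S
    refine ⟨K, fun l => ?_⟩
    induction l with
    | nil =>
      intro _ h hh
      refine ⟨h, ContinuousMap.HomotopicRel.refl _, fun c x v => ?_⟩
      have e : h c = one := hh c
      rw [e, one_fderiv]
      have := sqn_nonneg v
      change sqn v ≤ K ^ 2 * sqn v
      exact le_mul_of_one_le_left this (one_le_pow₀ hK1)
    | cons θ l ih =>
      intro hl h hh
      have h1 := ih (fun θ' hθ' => hl θ' (List.mem_cons_of_mem _ hθ')) (l.foldr mulC
        (ContinuousMap.const C one)) fun c => foldr_apply l _ c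
      obtain ⟨η, hη, h2⟩ := hl θ List.mem_cons_self
      have hone : ∀ θ' : C(C, SympCt n), (∃ η ∈ S, θ' = η ∨ ∀ c, θ' c = inv (η c)) →
          ∀ c ∈ A, θ' c = one := by
        rintro θ' ⟨η', hη', h3⟩ c hc
        rcases h3 with rfl | h3
        · exact hS _ hη' c hc
        · rw [h3, hS _ hη' c hc]
          exact SympCt.ext' fun _ => rfl
      have hθ : StretchLE K A θ := by
        rcases h2 with rfl | h2
        · exact hKS _ hη
        · exact hinv C A η θ K h2 (hKS _ hη)
      have hfold : ∀ c ∈ A, (l.foldr mulC (ContinuousMap.const C one)) c = one := by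
        intro c hc
        have hl' : ∀ θ' ∈ l, θ' c = one := fun θ' hθ' =>
          hone θ' (hl θ' (List.mem_cons_of_mem _ hθ')) c hc
        clear ih h1 hl hh
        induction l with
        | nil => rfl
        | cons a l ih2 =>
          rw [List.foldr_cons, mulC_apply, hl' a List.mem_cons_self,
            ih2 fun θ' hθ' => hl' θ' (List.mem_cons_of_mem _ hθ'), one_comp]
      refine hprod C A _ θ (l.foldr mulC (ContinuousMap.const C one)) h (fun c hc =>
        ⟨hone θ (hl θ List.mem_cons_self) c hc, hfold c hc⟩) (fun c => ?_) hθ h1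
      rw [hh c, List.map_cons, List.foldr_cons, foldr_apply]
      rfl
  · exact stretch_gap n
  · intro φ
    obtain ⟨L, _, hL⟩ := exists_cpx φ
    exact ⟨L, hL⟩
  · intro L
    classical
    obtain ⟨S, hS⟩ := finite_cpx n L
    refine (S.finite_toSet.image (fun φ : SympCt n =>
      (Quotient.mk (pathSetoid (SympCt n)) φ : ZerothHomotopy (SympCt n)))).subset ?_
    rintro q ⟨φ, rfl, h⟩
    obtain ⟨ψ, h1, h2⟩ := hS φ h
    exact ⟨ψ, h1, (Quotient.sound h2).symm⟩
  · intro φ L hL h
    exact gap hL h
  · intro m L l hL hl h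
    exact cpx_prod hL l hl h

end Pool.Agent.Results.MP_ec5dc5_gt.TwoNorms
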